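import Mathlib

/-!
# CD algebras with a faithful module are Lie algebras

An algebra is a vector space `V` with a bilinear product `m : V →ₗ[K] V →ₗ[K] V`.
If `M` is a module over a CD algebra `A` in characteristic different from two, then every
Jacobian `J(x, y, z)` of `A` acts as zero on `M`. So a CD algebra which is not a Lie algebra has
no faithful module at all, and such algebras exist in dimension five over every field.
-/

set_option autoImplicit false

namespace Pool.Agent.Results.MP_361790_al.NoFaithfulModule

universe u v w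

section Defs

variable {K : Type u} [Field K] {V : Type v} [AddCommGroup V] [Module K V]

/-- The commutator `[R_a, R_b]` of right multiplications, `R_a x = x a`. -/
def commR (m : V →ₗ[K] V →ₗ[K] V) (a b x : V) : V := m (m x b) a - m (m x a) b

/-- The algebra `(V, m)` is a CD algebra: it is anticommutative and every commutator `[R_a, R_b]`
of right multiplications is a derivation. -/
def IsCD (m : V →ₗ[K] V →ₗ[K] V) : Prop :=
  (∀ x, m x x = 0) ∧
    ∀ a b x y : V, commR m a b (m x y) = m (commR m a b x) y + m x (commR m a b y)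

/-- The Jacobian `J(x, y, z) = (xy)z + (yz)x + (zx)y`. -/
def jac (m : V →ₗ[K] V →ₗ[K] V) (x y z : V) : V := m (m x y) z + m (m y z) x + m (m z x) y

/-- The algebra `(V, m)` is a Lie algebra. -/
def IsLieAlg (m : V →ₗ[K] V →ₗ[K] V) : Prop := (∀ x, m x x = 0) ∧ ∀ x y z, jac m x y z = 0

variable {M : Type w} [AddCommGroup M] [Module K M]

/-- The product `(a, m)(b, n) = (ab, a • n - b • m)` on `A ⊕ M`. -/
def splitExt (m : V →ₗ[K] V →ₗ[K] V) (act : V →ₗ[K] M →ₗ[K] M) :
    (V × M) →ₗ[K] (V × M) →ₗ[K] (V × M) :=
  LinearMap.mk₂ K (fun p q => (m p.1 q.1, act p.1 q.2 - act q.1 p.2))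
    (by intro p p' q; ext <;> simp; abel)
    (by intro c p q; ext <;> simp [smul_sub])
    (by intro p q q'; ext <;> simp; abel)
    (by intro c p q; ext <;> simp [smul_sub])

/-- `M` with the bilinear map `act` is a module over the CD algebra `(V, m)`: the algebra `V ⊕ M`
with the product `(a, m)(b, n) = (ab, a • n - b • m)` is a CD algebra. -/
def IsCDModule (m : V →ₗ[K] V →ₗ[K] V) (act : V →ₗ[K] M →ₗ[K] M) : Prop :=
  IsCD (splitExt m act)

/-- The module is faithful: only `a = 0` acts as zero. -/
def Faithful (act : V →ₗ[K] M →ₗ[K] M) : Prop := ∀ a : V, (∀ n : M, act a n = 0) → a = 0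

/-- The defining property of CD algebras as the identity of degree four of the problem. -/
theorem isCD_iff (m : V →ₗ[K] V →ₗ[K] V) : IsCD m ↔ (∀ x, m x x = 0) ∧ ∀ x y a b : V,
    m (m (m x y) a) b - m (m (m x y) b) a - m (m (m x a) b) y + m (m (m x b) a) y
      + m (m (m y a) b) x - m (m (m y b) a) x = 0 := by
  unfold IsCD commR
  refine and_congr_right fun h => ?_
  have anti : ∀ x y : V, m x y = - m y x := by
    intro x y
    have := h (x + y)
    simp only [map_add, LinearMap.add_apply, h x, h y, zero_add, add_zero] at this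
    exact eq_neg_of_add_eq_zero_right this
  constructor
  · intro H x y a b
    have := H a b x y
    rw [anti x (m (m y b) a - m (m y a) b)] at this
    simp only [map_sub, LinearMap.sub_apply] at this
    rw [← sub_eq_zero] at this
    rw [← neg_eq_zero, ← this]
    abel
  · intro H a b x y
    have := H x y a b
    rw [anti x (m (m y b) a - m (m y a) b)]
    simp only [map_sub, LinearMap.sub_apply]
    rw [← sub_eq_zero, ← neg_eq_zero, ← this]
    abel

end Defs

section Main

variable {K : Type u} [Field K] {V : Type v} [AddCommGroup V] [Module K V]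
  {M : Type w} [AddCommGroup M] [Module K M]

theorem splitExt_apply (m : V →ₗ[K] V →ₗ[K] V) (act : V →ₗ[K] M →ₗ[K] M) (p q : V × M) :
    splitExt m act p q = (m p.1 q.1, act p.1 q.2 - act q.1 p.2) := rfl

theorem anti_of {m : V →ₗ[K] V →ₗ[K] V} (h : ∀ x, m x x = 0) (x y : V) : m x y = - m y x := by
  have := h (x + y)
  simp only [map_add, LinearMap.add_apply, h x, h y, zero_add, add_zero] at this
  exact eq_neg_of_add_eq_zero_right this

/-- `act ([R_a, R_b] y)` is `[[act a, act b], act y]`. -/
theorem act_comm {m : V →ₗ[K] V →ₗ[K] V} {act : V →ₗ[K] M →ₗ[K] M} (h : IsCDModule m act)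
    (a b y : V) (n : M) :
    act (commR m a b y) n = act a (act b (act y n)) - act b (act a (act y n))
      - act y (act a (act b n)) + act y (act b (act a n)) := by
  have H := h.2 (a, 0) (b, 0) (0, n) (y, 0)
  have H2 := congrArg Prod.snd H
  simp only [commR, splitExt_apply, map_zero, LinearMap.zero_apply, zero_sub, map_neg,
    Prod.snd_sub, Prod.snd_add, sub_zero, LinearMap.map_sub, LinearMap.sub_apply,
    sub_neg_eq_add, zero_add] at H2
  simp only [commR, map_sub, LinearMap.sub_apply]
  rw [← sub_eq_zero] at H2 ⊢
  rw [← H2]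
  abel

/-- Jacobians act as zero in every module. -/
theorem jac_act (h2 : (2 : K) ≠ 0) {m : V →ₗ[K] V →ₗ[K] V} (hm : IsCD m)
    {act : V →ₗ[K] M →ₗ[K] M} (h : IsCDModule m act) (x y z : V) (n : M) :
    act (jac m x y z) n = 0 := by
  have e1 := act_comm h x y z n
  have e2 := act_comm h y z x n
  have e3 := act_comm h z x y n
  have e : commR m x y z + commR m y z x + commR m z x y = (-2 : K) • jac m x y z := by
    unfold commR jac
    rw [anti_of hm.1 z y, anti_of hm.1 x z, anti_of hm.1 y x]
    simp only [map_neg, LinearMap.neg_apply]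
    module
  have s : act (commR m x y z + commR m y z x + commR m z x y) n = 0 := by
    rw [map_add, map_add, LinearMap.add_apply, LinearMap.add_apply, e1, e2, e3]
    abel
  rw [e, map_smul, LinearMap.smul_apply] at s
  rcases smul_eq_zero.1 s with h' | h'
  · exact absurd (neg_eq_zero.1 h') h2
  · exact h'

end Main

section Example

variable (K : Type u) [Field K]

/-- The product of the five-dimensional algebra with basis `e 0, ..., e 4` and
`e 0 * e 1 = e 3 = - e 1 * e 0`, `e 3 * e 2 = e 4 = - e 2 * e 3`, all other products being `0`. -/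
def exMul : (Fin 5 → K) →ₗ[K] (Fin 5 → K) →ₗ[K] (Fin 5 → K) :=
  LinearMap.mk₂ K (fun x y => ![0, 0, 0, x 0 * y 1 - x 1 * y 0, x 3 * y 2 - x 2 * y 3])
    (by intro p p' q; funext i; fin_cases i <;> simp <;> ring)
    (by intro c p q; funext i; fin_cases i <;> simp <;> ring)
    (by intro p q q'; funext i; fin_cases i <;> simp <;> ring)
    (by intro c p q; funext i; fin_cases i <;> simp <;> ring)

theorem exMul_apply (x y : Fin 5 → K) :
    exMul K x y = ![0, 0, 0, x 0 * y 1 - x 1 * y 0, x 3 * y 2 - x 2 * y 3] := rfl

theorem exMul_cd : IsCD (exMul K) := by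
  constructor
  · intro x
    rw [exMul_apply]
    funext i
    fin_cases i <;> simp <;> ring
  · intro a b x y
    simp only [commR, exMul_apply]
    funext i
    fin_cases i <;> simp <;> ring

theorem exMul_not_lie : ¬ IsLieAlg (exMul K) := by
  intro h
  have := congrFun (h.2 (Pi.single 0 1) (Pi.single 1 1) (Pi.single 2 1)) 4
  simp [jac, exMul_apply] at this

end Example

/-- **CD algebras: no analogue of the theorems of Ado and Iwasawa.** Let `K` be a field of
characteristic different from two.

(1) In every module `M` (of any dimension) over a CD algebra `A` over `K` all the Jacobians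
`J(x, y, z)`, with `x, y, z` in `A`, act as zero.

(2) So a CD algebra with a faithful module, of any dimension, is a Lie algebra.

(3) There is a five-dimensional CD algebra over `K` which is not a Lie algebra. It has no faithful
module, neither of finite nor of infinite dimension. -/
theorem result (K : Type u) [Field K] (h2 : (2 : K) ≠ 0) :
    (∀ (A : Type v) [AddCommGroup A] [Module K A] (m : A →ₗ[K] A →ₗ[K] A), IsCD m →
      ∀ (M : Type w) [AddCommGroup M] [Module K M] (act : A →ₗ[K] M →ₗ[K] M),
        IsCDModule m act →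
          (∀ (x y z : A) (n : M), act (jac m x y z) n = 0) ∧ (Faithful act → IsLieAlg m)) ∧
    ∃ (A : Type u) (_ : AddCommGroup A) (_ : Module K A) (m : A →ₗ[K] A →ₗ[K] A),
      Module.finrank K A = 5 ∧ IsCD m ∧ ¬ IsLieAlg m ∧
      ∀ (M : Type w) [AddCommGroup M] [Module K M] (act : A →ₗ[K] M →ₗ[K] M),
        IsCDModule m act → ¬ Faithful act := by
  have key : ∀ (A : Type v) [AddCommGroup A] [Module K A] (m : A →ₗ[K] A →ₗ[K] A), IsCD m →
      ∀ (M : Type w) [AddCommGroup M] [Module K M] (act : A →ₗ[K] M →ₗ[K] M),
        IsCDModule m act →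
          (∀ (x y z : A) (n : M), act (jac m x y z) n = 0) ∧ (Faithful act → IsLieAlg m) := by
    intro A _ _ m hm M _ _ act h
    exact ⟨jac_act h2 hm h, fun hf => ⟨hm.1, fun x y z => hf _ (jac_act h2 hm h x y z)⟩⟩
  refine ⟨key, Fin 5 → K, inferInstance, inferInstance, exMul K, by simp, exMul_cd K,
    exMul_not_lie K, ?_⟩
  intro M _ _ act h hf
  exact exMul_not_lie K ⟨(exMul_cd K).1, fun x y z => hf _ (jac_act h2 (exMul_cd K) h x y z)⟩

end Pool.Agent.Results.MP_361790_al.NoFaithfulModule
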